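import Pool.Agent.N266.TI.Stm

/-!
# Project TI (helper266), the Picone identity (helper814)
-/

set_option autoImplicit false

namespace Pool.Agent.N814.TI

open Pool.Agent.N266.TI

lemma gr_apply {n : ℕ} (v : E n → ℝ) (x : E n) (i : Fin n) : gr v x i = fderiv ℝ v x (e i) := rfl

lemma contDiff_comp {n : ℕ} {u : E n → ℝ} (hu : ContDiff ℝ 2 u) (i : Fin n) :
    ContDiff ℝ 1 (fun y => fderiv ℝ u y (e i)) :=
  (hu.fderiv_right (m := 1) (by norm_num)).clm_apply contDiff_const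

lemma contDiff_gr {n : ℕ} {u : E n → ℝ} (hu : ContDiff ℝ 2 u) : ContDiff ℝ 1 (gr u) := by
  rw [contDiff_euclidean]
  intro i
  exact contDiff_comp hu i

lemma norm_gr {n : ℕ} (v : E n → ℝ) (x : E n) : ‖gr v x‖ ^ 2 = ∑ i, (fderiv ℝ v x (e i)) ^ 2 := by
  rw [EuclideanSpace.real_norm_sq_eq]
  rfl

theorem t_PI : Pool.Agent.N266.TI.PI := by
  intro n φ u x hφ hu hx
  have hX : ContDiffAt ℝ 1 (fun y => (φ y ^ 2 / u y) • gr u y) x :=
    ((hφ.contDiffAt.pow 2).div (hu.contDiffAt.of_le (by norm_num)) hx.ne').smul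
      (contDiff_gr hu).contDiffAt
  refine ⟨hX, ?_⟩
  have hφd : HasFDerivAt φ (fderiv ℝ φ x) x :=
    (hφ.contDiffAt.differentiableAt (by norm_num)).hasFDerivAt
  have hud : HasFDerivAt u (fderiv ℝ u x) x :=
    (hu.contDiffAt.differentiableAt (by norm_num)).hasFDerivAt
  have hXd := (hX.differentiableAt (by norm_num)).hasFDerivAt
  have hcomp : ∀ i : Fin n,
      (fderiv ℝ (fun y => (φ y ^ 2 / u y) • gr u y) x (e i)) i =
        (2 * φ x * fderiv ℝ φ x (e i) * u x - φ x ^ 2 * fderiv ℝ u x (e i)) / u x ^ 2 *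
          fderiv ℝ u x (e i) + φ x ^ 2 / u x * fderiv ℝ (fun z => fderiv ℝ u z (e i)) x (e i) := by
    intro i
    have h1 : HasFDerivAt (fun y => (φ y ^ 2 / u y) * fderiv ℝ u y (e i))
        ((EuclideanSpace.proj i : E n →L[ℝ] ℝ).comp
          (fderiv ℝ (fun y => (φ y ^ 2 / u y) • gr u y) x)) x :=
      (EuclideanSpace.proj i : E n →L[ℝ] ℝ).hasFDerivAt.comp x hXd
    have hci : HasFDerivAt (fun y => fderiv ℝ u y (e i))
        (fderiv ℝ (fun z => fderiv ℝ u z (e i)) x) x :=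
      ((contDiff_comp hu i).contDiffAt.differentiableAt (by norm_num)).hasFDerivAt
    have hinv : HasFDerivAt (fun y => (u y)⁻¹) (-((u x) ^ 2)⁻¹ • fderiv ℝ u x) x :=
      (hasDerivAt_inv hx.ne').comp_hasFDerivAt x hud
    have h2 : HasFDerivAt (fun y => (φ y ^ 2 / u y) * fderiv ℝ u y (e i)) _ x :=
      ((hφd.pow 2).mul hinv).mul hci
    have h3 := h1.unique h2
    have h4 := congrArg (fun L : E n →L[ℝ] ℝ => L (e i)) h3
    change (fderiv ℝ (fun y => (φ y ^ 2 / u y) • gr u y) x (e i)) i = _ at h4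
    rw [h4]
    simp
    field_simp
    ring
  unfold dv lap
  rw [Finset.sum_congr rfl fun i _ => hcomp i, norm_gr, Finset.sum_add_distrib, ← Finset.mul_sum]
  have h5 : ∑ i : Fin n, (2 * φ x * fderiv ℝ φ x (e i) * u x - φ x ^ 2 * fderiv ℝ u x (e i)) /
      u x ^ 2 * fderiv ℝ u x (e i) ≤ ∑ i : Fin n, (fderiv ℝ φ x (e i)) ^ 2 := by
    refine Finset.sum_le_sum fun i _ => ?_
    have h6 : (fderiv ℝ φ x (e i)) ^ 2 -
        (2 * φ x * fderiv ℝ φ x (e i) * u x - φ x ^ 2 * fderiv ℝ u x (e i)) /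
        u x ^ 2 * fderiv ℝ u x (e i) =
        (fderiv ℝ φ x (e i) - φ x / u x * fderiv ℝ u x (e i)) ^ 2 := by
      field_simp
      ring
    have h7 := sq_nonneg (fderiv ℝ φ x (e i) - φ x / u x * fderiv ℝ u x (e i))
    linarith
  have h8 : φ x ^ 2 / u x * ∑ i : Fin n, fderiv ℝ (fun z => fderiv ℝ u z (e i)) x (e i) +
      φ x ^ 2 * (-∑ i : Fin n, fderiv ℝ (fun z => fderiv ℝ u z (e i)) x (e i)) / u x = 0 := by
    ring
  linarith

end Pool.Agent.N814.TI
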